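import Pool.Agent.H83.FS.Stm

/-! # Friends and strangers (helper83), job DRIVE -/

set_option autoImplicit false

namespace Pool.Agent.H597.FS83

open SimpleGraph Pool.Agent.H83.FS

theorem drive : S_drive := by
  intro V T _ _ Y col σ b b' p j hbb hcol
  induction j with
  | zero =>
    intro _ _ h0 h1 _
    exact ⟨σ, Rch.refl Y col σ, h0, h1, fun _ _ => rfl⟩
  | succ j ih =>
    intro hinj hadj h0 h1 hwh
    obtain ⟨τ, hr, hb', hb, hrest⟩ := ih
      (fun i i' hi hi' h => hinj i i' (by omega) (by omega) h)
      (fun i hi => hadj i (by omega)) h0 h1 (fun i hi hi' => hwh i hi (by omega))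
    have n12 : p (j + 1) ≠ p (j + 2) := fun h => by
      have := hinj _ _ (by omega) (by omega) h
      omega
    have n01 : p j ≠ p (j + 1) := fun h => by
      have := hinj _ _ (by omega) (by omega) h
      omega
    have n02 : p j ≠ p (j + 2) := fun h => by
      have := hinj _ _ (by omega) (by omega) h
      omega
    -- the white token on `p (j + 2)`
    have hsym : τ.symm (p (j + 2)) = σ.symm (p (j + 2)) := by
      refine hrest _ fun i hi h => ?_
      have := hinj _ _ (by omega) (by omega) h
      omega
    have hwhite : pc col τ (p (j + 2)) = !(col b) := by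
      have h2 := hwh (j + 2) (by omega) (by omega)
      unfold pc at h2 ⊢
      rw [hsym]
      exact h2
    have sb : τ.symm (p (j + 1)) = b := by rw [← hb, Equiv.symm_apply_apply]
    have sb' : τ.symm (p j) = b' := by rw [← hb', Equiv.symm_apply_apply]
    -- first move
    have m1 : Rch Y col τ (τ.trans (Equiv.swap (p (j + 1)) (p (j + 2)))) := by
      apply move (hadj (j + 1) (by omega))
      rw [hwhite]
      unfold pc
      rw [sb]
      cases col b <;> decide
    -- second move
    have m2 : Rch Y col (τ.trans (Equiv.swap (p (j + 1)) (p (j + 2))))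
        ((τ.trans (Equiv.swap (p (j + 1)) (p (j + 2)))).trans (Equiv.swap (p j) (p (j + 1)))) := by
      apply move (hadj j (by omega))
      rw [pc_move, pc_move, Equiv.swap_apply_of_ne_of_ne n01 n02, Equiv.swap_apply_left, hwhite]
      unfold pc
      rw [sb', ← hcol]
      cases col b <;> decide
    refine ⟨_, (hr.trans m1).trans m2, ?_, ?_, ?_⟩
    · rw [Equiv.trans_apply, Equiv.trans_apply, hb', Equiv.swap_apply_of_ne_of_ne n01 n02,
        Equiv.swap_apply_left]
    · rw [Equiv.trans_apply, Equiv.trans_apply, hb, Equiv.swap_apply_left,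
        Equiv.swap_apply_of_ne_of_ne n02.symm n12.symm]
    · intro x hx
      rw [move_symm_apply, Equiv.swap_apply_of_ne_of_ne (hx j (by omega)) (hx (j + 1) (by omega)),
        move_symm_apply, Equiv.swap_apply_of_ne_of_ne (hx (j + 1) (by omega))
          (hx (j + 2) (by omega))]
      exact hrest x fun i hi => hx i (by omega)

end Pool.Agent.H597.FS83
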